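import Pool.Agent.H81.NCH.Stmts2

/-!
# WSB: from a weakly skew derivation to a weakly skew circuit
-/

set_option autoImplicit false

namespace Pool.Agent.H81.NCH

open Pool.Agent.H80

universe u

namespace WSB

variable {K : Type u} {σ : Type}

/-- A map of pre-circuits which respects the gates. -/
structure Emb (D E : Pre K σ) (f : D.V → E.V) : Prop where
  inj : Function.Injective f
  gate : ∀ v, E.gate (f v) = Pre.mapGate f (D.gate v)

theorem Emb.tail {D E : Pre K σ} {f : D.V → E.V} (h : Emb D E f) (v : D.V) (j : Fin 2) (x : E.V) :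
    (E.gate (f v)).tail j = some x ↔ ∃ s, x = f s ∧ (D.gate v).tail j = some s := by
  rw [h.gate, Pre.mapGate_tail, Option.map_eq_some_iff]
  constructor
  · rintro ⟨a, h1, h2⟩
    exact ⟨a, h2.symm, h1⟩
  · rintro ⟨a, h1, h2⟩
    exact ⟨a, h2, h1.symm⟩

theorem Emb.path {D E : Pre K σ} {f : D.V → E.V} (h : Emb D E f) (x : E.V) (t : D.V) :
    E.Path x (f t) ↔ ∃ s, x = f s ∧ D.Path s t := by
  constructor
  · intro hp
    induction hp using Relation.ReflTransGen.head_induction_on with
    | refl => exact ⟨t, rfl, Relation.ReflTransGen.refl⟩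
    | head h1 _ ih =>
      obtain ⟨s, rfl, hs⟩ := ih
      obtain ⟨j, hj⟩ := h1
      obtain ⟨s', rfl, hs'⟩ := (h.tail s j _).1 hj
      exact ⟨s', rfl, Relation.ReflTransGen.head ⟨j, hs'⟩ hs⟩
  · rintro ⟨s, rfl, hs⟩
    induction hs with
    | refl => exact Relation.ReflTransGen.refl
    | tail _ h2 ih =>
      obtain ⟨j, hj⟩ := h2
      exact ih.tail ⟨j, (h.tail _ j _).2 ⟨_, rfl, hj⟩⟩

theorem Emb.path' {D E : Pre K σ} {f : D.V → E.V} (h : Emb D E f) (s t : D.V) :
    E.Path (f s) (f t) ↔ D.Path s t := by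
  rw [h.path]
  constructor
  · rintro ⟨s', h1, h2⟩
    rw [h.inj h1]
    exact h2
  · intro h1
    exact ⟨s, rfl, h1⟩

theorem mul_tail {V : Type} (a b : V) (k : Fin 2) :
    (Gate.mul a b : Gate K σ V).tail k = some (if k = 0 then a else b) := rfl

theorem mapGate_mul {V W : Type} (f : V → W) (g : Gate K σ V) (a b : W)
    (h : Pre.mapGate f g = Gate.mul a b) : ∃ a' b', g = Gate.mul a' b' ∧ a = f a' ∧ b = f b' := by
  cases g with
  | var i => simp [Pre.mapGate] at h
  | const c => simp [Pre.mapGate] at h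
  | add a' b' => simp [Pre.mapGate] at h
  | mul a' b' =>
    simp only [Pre.mapGate, Gate.mul.injEq] at h
    exact ⟨a', b', rfl, h.1.symm, h.2.symm⟩

/-- The choice of a closed edge at each multiplication gate. -/
def WS (D : Pre K σ) (pr : D.V → Fin 2) : Prop :=
  ∀ g a b : D.V, D.gate g = Gate.mul a b → ∀ t : D.V, (D.gate g).tail (pr g) = some t →
    ∀ (w : D.V) (k : Fin 2) (s : D.V), (D.gate w).tail k = some s → D.Path s t → ¬ D.Path w t →
      w = g ∧ k = pr g

/-- The node lies below a closed edge. -/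
def Clo (D : Pre K σ) (pr : D.V → Fin 2) (v : D.V) : Prop :=
  ∃ g a b t : D.V, D.gate g = Gate.mul a b ∧ (D.gate g).tail (pr g) = some t ∧ D.Path v t

theorem WS.weaklySkew {D : Pre K σ} {pr : D.V → Fin 2} (h : WS D pr) : D.WeaklySkew := by
  intro g a b hg
  have ht : ∃ t, (D.gate g).tail (pr g) = some t := by
    rw [hg]
    exact ⟨_, rfl⟩
  obtain ⟨t, ht⟩ := ht
  exact ⟨pr g, t, ht, fun w k s h1 h2 h3 => h g a b hg t ht w k s h1 h2 h3⟩

theorem Emb.ws {D E : Pre K σ} {f : D.V → E.V} (h : Emb D E f) {pr : E.V → Fin 2} (hw : WS E pr) :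
    WS D (fun v => pr (f v)) := by
  intro g a b hg t ht w k s hs hst hwt
  have h1 : E.gate (f g) = Gate.mul (f a) (f b) := by
    rw [h.gate, hg]
    rfl
  have h2 := hw (f g) (f a) (f b) h1 (f t) ((h.tail _ _ _).2 ⟨t, rfl, ht⟩) (f w) k (f s)
    ((h.tail _ _ _).2 ⟨s, rfl, hs⟩) ((h.path' _ _).2 hst) (fun h3 => hwt ((h.path' _ _).1 h3))
  exact ⟨h.inj h2.1, h2.2⟩

theorem Emb.clo {D E : Pre K σ} {f : D.V → E.V} (h : Emb D E f) {pr : E.V → Fin 2} {v : D.V}
    (hv : Clo D (fun v => pr (f v)) v) : Clo E pr (f v) := by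
  obtain ⟨g, a, b, t, hg, ht, hp⟩ := hv
  refine ⟨f g, f a, f b, f t, ?_, (h.tail _ _ _).2 ⟨t, rfl, ht⟩, (h.path' _ _).2 hp⟩
  rw [h.gate, hg]
  rfl

/-! ### Disjoint unions -/

/-- The disjoint union. -/
def uni (D D' : Pre K σ) : Pre K σ where
  V := D.V ⊕ D'.V
  fin := by
    have := D.fin
    have := D'.fin
    exact inferInstance
  gate := fun v => match v with
    | Sum.inl v => Pre.mapGate Sum.inl (D.gate v)
    | Sum.inr v => Pre.mapGate Sum.inr (D'.gate v)
  acyclic := by
    obtain ⟨rank, hr⟩ := D.acyclic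
    obtain ⟨rank', hr'⟩ := D'.acyclic
    refine ⟨Sum.elim rank rank', ?_⟩
    intro v j t ht
    cases v with
    | inl v =>
      have h1 : (Pre.mapGate Sum.inl (D.gate v)).tail j = some t := ht
      rw [Pre.mapGate_tail, Option.map_eq_some_iff] at h1
      obtain ⟨a, ha, rfl⟩ := h1
      exact hr _ _ _ ha
    | inr v =>
      have h1 : (Pre.mapGate Sum.inr (D'.gate v)).tail j = some t := ht
      rw [Pre.mapGate_tail, Option.map_eq_some_iff] at h1
      obtain ⟨a, ha, rfl⟩ := h1
      exact hr' _ _ _ ha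

theorem uni_card (D D' : Pre K σ) : @Fintype.card (uni D D').V (uni D D').fin =
    @Fintype.card D.V D.fin + @Fintype.card D'.V D'.fin :=
  @Fintype.card_sum D.V D'.V D.fin D'.fin

theorem emb_inl (D D' : Pre K σ) : Emb D (uni D D') Sum.inl := ⟨Sum.inl_injective, fun _ => rfl⟩

theorem emb_inr (D D' : Pre K σ) : Emb D' (uni D D') Sum.inr := ⟨Sum.inr_injective, fun _ => rfl⟩

theorem uni_ws {D D' : Pre K σ} {pr : D.V → Fin 2} {pr' : D'.V → Fin 2} (h : WS D pr)
    (h' : WS D' pr') : WS (uni D D') (Sum.elim pr pr') := by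
  intro g a b hg t ht w k s hs hst hwt
  cases g with
  | inl g =>
    obtain ⟨a', b', hg', -, -⟩ := mapGate_mul _ _ _ _ hg
    obtain ⟨t', rfl, ht'⟩ := ((emb_inl D D').tail g _ _).1 ht
    obtain ⟨s', rfl, hs'⟩ := ((emb_inl D D').path _ _).1 hst
    cases w with
    | inl w =>
      obtain ⟨s'', h1, h2⟩ := ((emb_inl D D').tail w _ _).1 hs
      rw [← Sum.inl_injective h1] at h2
      have h3 := h g a' b' hg' t' ht' w k s' h2 hs'
        (fun h4 => hwt (((emb_inl D D').path' _ _).2 h4))
      exact ⟨by rw [h3.1], h3.2⟩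
    | inr w =>
      obtain ⟨s'', h1, -⟩ := ((emb_inr D D').tail w _ _).1 hs
      exact absurd h1 (by simp)
  | inr g =>
    obtain ⟨a', b', hg', -, -⟩ := mapGate_mul _ _ _ _ hg
    obtain ⟨t', rfl, ht'⟩ := ((emb_inr D D').tail g _ _).1 ht
    obtain ⟨s', rfl, hs'⟩ := ((emb_inr D D').path _ _).1 hst
    cases w with
    | inr w =>
      obtain ⟨s'', h1, h2⟩ := ((emb_inr D D').tail w _ _).1 hs
      rw [← Sum.inr_injective h1] at h2
      have h3 := h' g a' b' hg' t' ht' w k s' h2 hs'
        (fun h4 => hwt (((emb_inr D D').path' _ _).2 h4))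
      exact ⟨by rw [h3.1], h3.2⟩
    | inl w =>
      obtain ⟨s'', h1, -⟩ := ((emb_inl D D').tail w _ _).1 hs
      exact absurd h1 (by simp)

theorem uni_clo_inl {D D' : Pre K σ} {pr : D.V → Fin 2} {pr' : D'.V → Fin 2} {v : D.V}
    (h : Clo (uni D D') (Sum.elim pr pr') (Sum.inl v)) : Clo D pr v := by
  obtain ⟨g, a, b, t, hg, ht, hp⟩ := h
  cases g with
  | inl g =>
    obtain ⟨a', b', hg', -, -⟩ := mapGate_mul _ _ _ _ hg
    obtain ⟨t', rfl, ht'⟩ := ((emb_inl D D').tail g _ _).1 ht
    exact ⟨g, a', b', t', hg', ht', ((emb_inl D D').path' _ _).1 hp⟩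
  | inr g =>
    obtain ⟨t', rfl, ht'⟩ := ((emb_inr D D').tail g _ _).1 ht
    obtain ⟨s', h1, -⟩ := ((emb_inr D D').path _ _).1 hp
    exact absurd h1 (by simp)

theorem uni_clo_inr {D D' : Pre K σ} {pr : D.V → Fin 2} {pr' : D'.V → Fin 2} {v : D'.V}
    (h : Clo (uni D D') (Sum.elim pr pr') (Sum.inr v)) : Clo D' pr' v := by
  obtain ⟨g, a, b, t, hg, ht, hp⟩ := h
  cases g with
  | inr g =>
    obtain ⟨a', b', hg', -, -⟩ := mapGate_mul _ _ _ _ hg
    obtain ⟨t', rfl, ht'⟩ := ((emb_inr D D').tail g _ _).1 ht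
    exact ⟨g, a', b', t', hg', ht', ((emb_inr D D').path' _ _).1 hp⟩
  | inl g =>
    obtain ⟨t', rfl, ht'⟩ := ((emb_inl D D').tail g _ _).1 ht
    obtain ⟨s', h1, -⟩ := ((emb_inl D D').path _ _).1 hp
    exact absurd h1 (by simp)

/-! ### Adding a node -/

theorem emb_some (D : Pre K σ) (gg : Gate K σ D.V) : Emb D (D.addNode gg) some :=
  ⟨Option.some_injective _, fun _ => rfl⟩

/-- The choice after adding a node. -/
def prA {V : Type} (pr : V → Fin 2) (j : Fin 2) : Option V → Fin 2 := fun v => match v with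
  | none => j
  | some v => pr v

theorem none_tail {D : Pre K σ} {gg : Gate K σ D.V} {k : Fin 2} {x : Option D.V}
    (h : ((D.addNode gg).gate none).tail k = some x) : ∃ y, x = some y ∧ gg.tail k = some y := by
  have h1 : (Pre.mapGate some gg).tail k = some x := h
  rw [Pre.mapGate_tail, Option.map_eq_some_iff] at h1
  obtain ⟨a, ha, rfl⟩ := h1
  exact ⟨a, rfl, ha⟩

theorem add_ws {D : Pre K σ} {pr : D.V → Fin 2} (h : WS D pr) (gg : Gate K σ D.V) (j : Fin 2)
    (H1 : ∀ k x, gg.tail k = some x → ¬ Clo D pr x)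
    (H2 : ∀ a b, gg = Gate.mul a b → ∀ t, gg.tail j = some t →
      (∀ w k s, (D.gate w).tail k = some s → D.Path s t → D.Path w t) ∧
      ∀ k s, gg.tail k = some s → D.Path s t → k = j) :
    WS (D.addNode gg) (prA pr j) := by
  intro g a b hg t ht w k s hs hst hwt
  cases g with
  | some g =>
    obtain ⟨a', b', hg', -, -⟩ := mapGate_mul _ _ _ _ hg
    obtain ⟨t', rfl, ht'⟩ := ((emb_some D gg).tail g _ _).1 ht
    obtain ⟨s', rfl, hs'⟩ := ((emb_some D gg).path _ _).1 hst
    cases w with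
    | some w =>
      obtain ⟨s'', h1, h2⟩ := ((emb_some D gg).tail w _ _).1 hs
      rw [← Option.some_injective _ h1] at h2
      have h3 := h g a' b' hg' t' ht' w k s' h2 hs'
        (fun h4 => hwt (((emb_some D gg).path' _ _).2 h4))
      exact ⟨by rw [h3.1], h3.2⟩
    | none =>
      obtain ⟨y, h1, h2⟩ := none_tail hs
      rw [← Option.some_injective _ h1] at h2
      exact absurd ⟨g, a', b', t', hg', ht', hs'⟩ (H1 k s' h2)
  | none =>
    obtain ⟨a', b', hg', -, -⟩ := mapGate_mul _ _ _ _ hg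
    obtain ⟨t', rfl, ht'⟩ := none_tail ht
    obtain ⟨h5, h6⟩ := H2 a' b' hg' t' ht'
    obtain ⟨s', rfl, hs'⟩ := ((emb_some D gg).path _ _).1 hst
    cases w with
    | some w =>
      obtain ⟨s'', h1, h2⟩ := ((emb_some D gg).tail w _ _).1 hs
      rw [← Option.some_injective _ h1] at h2
      exact absurd (((emb_some D gg).path' _ _).2 (h5 w k s' h2 hs')) hwt
    | none =>
      obtain ⟨y, h1, h2⟩ := none_tail hs
      rw [← Option.some_injective _ h1] at h2
      exact ⟨rfl, h6 k s' h2 hs'⟩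

theorem add_clo_none {D : Pre K σ} {pr : D.V → Fin 2} (gg : Gate K σ D.V) (j : Fin 2) :
    ¬ Clo (D.addNode gg) (prA pr j) none := by
  rintro ⟨g, a, b, t, hg, ht, hp⟩
  have h1 : ∃ t', t = some t' := by
    cases g with
    | some g =>
      obtain ⟨t', rfl, -⟩ := ((emb_some D gg).tail g _ _).1 ht
      exact ⟨t', rfl⟩
    | none =>
      obtain ⟨t', rfl, -⟩ := none_tail ht
      exact ⟨t', rfl⟩
  obtain ⟨t', rfl⟩ := h1
  obtain ⟨s', h2, -⟩ := ((emb_some D gg).path _ _).1 hp
  exact absurd h2 (by simp)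

theorem add_clo_some {D : Pre K σ} {pr : D.V → Fin 2} (gg : Gate K σ D.V) (j : Fin 2) {v : D.V}
    (h : Clo (D.addNode gg) (prA pr j) (some v)) :
    Clo D pr v ∨ ∃ a b t, gg = Gate.mul a b ∧ gg.tail j = some t ∧ D.Path v t := by
  obtain ⟨g, a, b, t, hg, ht, hp⟩ := h
  cases g with
  | some g =>
    obtain ⟨a', b', hg', -, -⟩ := mapGate_mul _ _ _ _ hg
    obtain ⟨t', rfl, ht'⟩ := ((emb_some D gg).tail g _ _).1 ht
    exact Or.inl ⟨g, a', b', t', hg', ht', ((emb_some D gg).path' _ _).1 hp⟩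
  | none =>
    obtain ⟨a', b', hg', -, -⟩ := mapGate_mul _ _ _ _ hg
    obtain ⟨t', rfl, ht'⟩ := none_tail ht
    exact Or.inr ⟨a', b', t', hg', ht', ((emb_some D gg).path' _ _).1 hp⟩

/-! ### Pruning -/

/-- A circuit as a pre-circuit. -/
def toPre (C : Circuit K σ) : Pre K σ := ⟨C.V, C.fin, C.gate, C.acyclic⟩

theorem emb_prune (D : Pre K σ) (o : D.V) :
    Emb (toPre (D.prune o)) D (fun x : {x : D.V // D.Path x o} => x.1) := by
  refine ⟨Subtype.val_injective, ?_⟩
  intro v
  have h : ∀ (g : Gate K σ D.V) (hh : ∀ (j : Fin 2) (t : D.V), g.tail j = some t → D.Path t o),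
      g = Pre.mapGate (fun x : {x : D.V // D.Path x o} => x.1)
        (Pre.restrictGate (fun x => D.Path x o) g hh) := by
    intro g hh
    cases g <;> rfl
  exact h _ _

section Values

variable [Semiring K]

theorem ncValue_mapGate {V W : Type} (f : V → W) (g : Gate K σ V) (val : W → NCPoly K σ) :
    ncValue (Pre.mapGate f g) val = ncValue g (fun x => val (f x)) := by
  cases g <;> rfl

/-- Values after adding a node. -/
noncomputable def valA {V : Type} (g : Gate K σ V) (val : V → NCPoly K σ) :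
    Option V → NCPoly K σ := fun v => match v with
  | none => ncValue g val
  | some v => val v

theorem valA_compat {D : Pre K σ} (gg : Gate K σ D.V) {val : D.V → NCPoly K σ}
    (h : ∀ v, val v = ncValue (D.gate v) val) (v : (D.addNode gg).V) :
    valA gg val v = ncValue ((D.addNode gg).gate v) (valA gg val) := by
  cases v with
  | none => exact (ncValue_mapGate some gg (valA gg val)).symm
  | some v => exact (h v).trans (ncValue_mapGate some (D.gate v) (valA gg val)).symm

theorem homog_mul {p q : NCPoly K σ} {i j : ℕ} (hp : HomogOf p i) (hq : HomogOf q j) :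
    HomogOf (p * q) (i + j) := by
  classical
  intro w hw
  have h1 : w ∈ (p * q).coeff.support := Finsupp.mem_support_iff.2 hw
  have h2 := MonoidAlgebra.support_coeff_mul_subset p q h1
  rw [Finset.mem_mul] at h2
  obtain ⟨a, ha, b, hb, rfl⟩ := h2
  rw [FreeMonoid.length_mul, hp a (Finsupp.mem_support_iff.1 ha),
    hq b (Finsupp.mem_support_iff.1 hb)]

theorem homog_var (i : σ) : HomogOf (MonoidAlgebra.single (FreeMonoid.of i) 1 : NCPoly K σ) 1 := by
  classical
  intro w hw
  rw [MonoidAlgebra.coeff_single, Finsupp.single_apply] at hw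
  by_cases h : FreeMonoid.of i = w
  · rw [← h]
    rfl
  · rw [if_neg h] at hw
    exact absurd rfl hw

theorem homog_const (c : K) : HomogOf (MonoidAlgebra.single 1 c : NCPoly K σ) 0 := by
  classical
  intro w hw
  rw [MonoidAlgebra.coeff_single, Finsupp.single_apply] at hw
  by_cases h : (1 : FreeMonoid σ) = w
  · rw [← h]
    rfl
  · rw [if_neg h] at hw
    exact absurd rfl hw

theorem prune_compat {D : Pre K σ} {o : D.V} {val : D.V → NCPoly K σ}
    (h : ∀ v, val v = ncValue (D.gate v) val) (x : {x : D.V // D.Path x o}) :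
    val x.1 = ncValue ((D.prune o).gate x) (fun z : {x : D.V // D.Path x o} => val z.1) := by
  have h2 : ∀ (g : Gate K σ D.V) (hh : ∀ (j : Fin 2) (t : D.V), g.tail j = some t → D.Path t o),
      ncValue g val = ncValue (Pre.restrictGate (fun x => D.Path x o) g hh)
        (fun z : {x : D.V // D.Path x o} => val z.1) := by
    intro g hh
    cases g <;> rfl
  exact (h x.1).trans (h2 _ _)

/-- The state of the construction. -/
def St (l : List (NCPoly K σ)) (k : ℕ) : Prop :=
  ∃ (D : Pre K σ) (val : D.V → NCPoly K σ) (pr : D.V → Fin 2),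
    (∀ v, val v = ncValue (D.gate v) val) ∧ (∀ v, ∃ d, HomogOf (val v) d) ∧ WS D pr ∧
    @Fintype.card D.V D.fin ≤ k ∧ ∀ p ∈ l, ∃ v, val v = p ∧ ¬ Clo D pr v

theorem st_nil : St ([] : List (NCPoly K σ)) 0 := by
  refine ⟨Pre.empty K σ, fun v => v.elim, fun v => v.elim, fun v => v.elim, fun v => v.elim,
    fun v => v.elim, le_of_eq rfl, ?_⟩
  intro p hp
  simp at hp

/-- Adding a gate which is not a product. -/
theorem st_add {l : List (NCPoly K σ)} {k : ℕ} {D : Pre K σ} {val : D.V → NCPoly K σ}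
    {pr : D.V → Fin 2} (h1 : ∀ v, val v = ncValue (D.gate v) val)
    (h2 : ∀ v, ∃ d, HomogOf (val v) d) (h3 : WS D pr) (h4 : @Fintype.card D.V D.fin ≤ k)
    (h5 : ∀ p ∈ l, ∃ v, val v = p ∧ ¬ Clo D pr v) (gg : Gate K σ D.V)
    (hm : ∀ a b, gg ≠ Gate.mul a b) (H1 : ∀ k x, gg.tail k = some x → ¬ Clo D pr x)
    (hh : ∃ d, HomogOf (ncValue gg val) d) : St (ncValue gg val :: l) (k + 1) := by
  refine ⟨D.addNode gg, valA gg val, prA pr 0, valA_compat gg h1, ?_, ?_, ?_, ?_⟩
  · intro v
    cases v with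
    | none => exact hh
    | some v => exact h2 v
  · exact add_ws h3 gg 0 H1 (fun a b h => absurd h (hm a b))
  · rw [Pre.addNode_card]
    omega
  · intro p hp
    rcases List.mem_cons.1 hp with rfl | hp
    · exact ⟨none, rfl, add_clo_none gg 0⟩
    · obtain ⟨v, hv, hc⟩ := h5 p hp
      refine ⟨some v, hv, fun h => ?_⟩
      rcases add_clo_some gg 0 h with h | ⟨a, b, t, h, -, -⟩
      · exact hc h
      · exact hm a b h

/-- Adding a product with a private factor; `j` is the number of the private factor. -/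
theorem st_mul {l l' : List (NCPoly K σ)} {k k' : ℕ} (h : St l k) (h' : St l' k')
    {a b : NCPoly K σ} (ha : a ∈ l') (hb : b ∈ l) (j : Fin 2) :
    St ((if j = 0 then a * b else b * a) :: l) (k + k' + 1) := by
  obtain ⟨D, val, pr, h1, h2, h3, h4, h5⟩ := h
  obtain ⟨D', val', pr', h1', h2', h3', h4', h5'⟩ := h'
  obtain ⟨y, hy, hyc⟩ := h5 b hb
  obtain ⟨x, hx, hxc⟩ := h5' a ha
  -- the pruned private part
  set P : Pre K σ := toPre (D'.prune x) with hP
  have hemb : Emb P D' (fun z : {z : D'.V // D'.Path z x} => z.1) := emb_prune D' x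
  set prP : P.V → Fin 2 := fun z => pr' z.1 with hprP
  have hwsP : WS P prP := hemb.ws h3'
  set x0 : P.V := ⟨x, Relation.ReflTransGen.refl⟩ with hx0
  have hx0c : ¬ Clo P prP x0 := fun h => hxc (hemb.clo h)
  have hall : ∀ z : P.V, P.Path z x0 := by
    intro z
    have h6 : D'.Path z.1 x := z.2
    obtain ⟨s, h7, h8⟩ := (hemb.path z.1 x0).1 h6
    rw [Subtype.ext h7]
    exact h8
  have hcardP : @Fintype.card P.V P.fin ≤ k' := (D'.prune_size_le x).trans h4'
  -- the union
  set U : Pre K σ := uni D P with hU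
  set prU : U.V → Fin 2 := Sum.elim pr prP with hprU
  have hwsU : WS U prU := uni_ws h3 hwsP
  set valU : U.V → NCPoly K σ := Sum.elim val (fun z : P.V => val' z.1) with hvalU
  have hvalUc : ∀ v, valU v = ncValue (U.gate v) valU := by
    intro v
    cases v with
    | inl v => exact (h1 v).trans (ncValue_mapGate Sum.inl (D.gate v) valU).symm
    | inr v =>
      refine Eq.trans ?_ (ncValue_mapGate Sum.inr (P.gate v) valU).symm
      exact prune_compat h1' v
  have hvalUh : ∀ v, ∃ d, HomogOf (valU v) d := by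
    intro v
    cases v with
    | inl v => exact h2 v
    | inr v => exact h2' v.1
  let xr : U.V := Sum.inr x0
  let yl : U.V := Sum.inl y
  have hopx : ¬ Clo U prU xr := fun h => hx0c (uni_clo_inr h)
  have hopl : ∀ v : D.V, ¬ Clo D pr v → ¬ Clo U prU (Sum.inl v) := fun v hv h => hv (uni_clo_inl h)
  have hnp : ∀ v : D.V, ¬ U.Path (Sum.inl v) xr := by
    intro v hv
    obtain ⟨s, hs, -⟩ := ((emb_inr D P).path _ _).1 hv
    exact absurd hs (by simp)
  -- the new gate
  set gg : Gate K σ U.V := if j = 0 then Gate.mul xr yl else Gate.mul yl xr with hgg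
  have hggj : gg.tail j = some xr := by
    rw [hgg]
    by_cases hj : j = 0
    · rw [if_pos hj, mul_tail, if_pos hj]
    · rw [if_neg hj, mul_tail, if_neg hj]
  have hggk : ∀ k s, gg.tail k = some s → k = j ∨ s = yl := by
    intro k s hs
    rw [hgg] at hs
    by_cases hj : j = 0
    · rw [if_pos hj, mul_tail] at hs
      by_cases hk : k = 0
      · exact Or.inl (hk.trans hj.symm)
      · rw [if_neg hk] at hs
        exact Or.inr (Option.some_injective _ hs).symm
    · rw [if_neg hj, mul_tail] at hs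
      by_cases hk : k = 0
      · rw [if_pos hk] at hs
        exact Or.inr (Option.some_injective _ hs).symm
      · left
        omega
  have hggv : ncValue gg valU = if j = 0 then a * b else b * a := by
    rw [hgg]
    by_cases hj : j = 0
    · rw [if_pos hj, if_pos hj, ← hx, ← hy]
      rfl
    · rw [if_neg hj, if_neg hj, ← hx, ← hy]
      rfl
  rw [← hggv]
  refine ⟨U.addNode gg, valA gg valU, prA prU j, valA_compat gg hvalUc, ?_, ?_, ?_, ?_⟩
  · intro v
    cases v with
    | none =>
      show ∃ d, HomogOf (ncValue gg valU) d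
      rw [hggv]
      obtain ⟨i, hi⟩ := h2' x
      obtain ⟨i', hi'⟩ := h2 y
      rw [hx] at hi
      rw [hy] at hi'
      by_cases hj : j = 0
      · rw [if_pos hj]
        exact ⟨_, homog_mul hi hi'⟩
      · rw [if_neg hj]
        exact ⟨_, homog_mul hi' hi⟩
    | some v => exact hvalUh v
  · refine add_ws hwsU gg j ?_ ?_
    · intro k s hs
      rcases hggk k s hs with h | h
      · rw [h, hggj] at hs
        have hs' := Option.some_injective _ hs
        rw [← hs']
        exact hopx
      · rw [h]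
        exact hopl y hyc
    · intro a' b' _ t ht
      rw [hggj] at ht
      have ht' : xr = t := Option.some_injective _ ht
      subst ht'
      constructor
      · intro w k s hs hst
        obtain ⟨s', rfl, -⟩ := ((emb_inr D P).path _ _).1 hst
        cases w with
        | inl w =>
          obtain ⟨s'', h6, -⟩ := ((emb_inl D P).tail w _ _).1 hs
          exact absurd h6 (by simp)
        | inr w => exact ((emb_inr D P).path' _ _).2 (hall w)
      · intro k s hs hst
        rcases hggk k s hs with h | h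
        · exact h
        · rw [h] at hst
          exact absurd hst (hnp y)
  · rw [Pre.addNode_card]
    have h6 := uni_card D P
    rw [← hU] at h6
    omega
  · intro p hp
    rcases List.mem_cons.1 hp with rfl | hp
    · exact ⟨none, rfl, add_clo_none gg j⟩
    · obtain ⟨v, hv, hc⟩ := h5 p hp
      refine ⟨some (Sum.inl v), hv, fun h => ?_⟩
      rcases add_clo_some gg j h with h | ⟨a', b', t, -, ht, hp'⟩
      · exact hopl v hc h
      · rw [hggj] at ht
        have ht' : xr = t := Option.some_injective _ ht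
        rw [← ht'] at hp'
        exact hnp v hp'

theorem st_of_wsd {l : List (NCPoly K σ)} {k : ℕ} (h : WSD l k) : St l k := by
  induction h with
  | nil => exact st_nil
  | var _ i ih =>
    obtain ⟨D, val, pr, h1, h2, h3, h4, h5⟩ := ih
    exact st_add h1 h2 h3 h4 h5 (Gate.var i) (fun _ _ h => by simp at h)
      (fun k x hx => by simp [Gate.tail] at hx) ⟨1, homog_var i⟩
  | const _ c ih =>
    obtain ⟨D, val, pr, h1, h2, h3, h4, h5⟩ := ih
    exact st_add h1 h2 h3 h4 h5 (Gate.const c) (fun _ _ h => by simp at h)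
      (fun k x hx => by simp [Gate.tail] at hx) ⟨0, homog_const c⟩
  | add _ ha hb hom ih =>
    obtain ⟨D, val, pr, h1, h2, h3, h4, h5⟩ := ih
    obtain ⟨v, rfl, hv⟩ := h5 _ ha
    obtain ⟨w, rfl, hw⟩ := h5 _ hb
    refine st_add h1 h2 h3 h4 h5 (Gate.add v w) (fun _ _ h => by simp at h) ?_ hom
    intro k x hx
    by_cases hk : k = 0
    · simp only [Gate.tail, hk, if_true, Option.some.injEq] at hx
      rw [← hx]
      exact hv
    · simp only [Gate.tail, hk, if_false, Option.some.injEq] at hx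
      rw [← hx]
      exact hw
  | mulL _ _ ha hb ih ih' => exact st_mul ih ih' ha hb 0
  | mulR _ _ ha hb ih ih' => exact st_mul ih ih' hb ha 1

end Values

end WSB

/-- **WSB**: from a derivation to a weakly skew circuit. -/
theorem wsb_thm : WSBStmt.{u} := by
  intro K _ n l k f hl hf
  obtain ⟨D, val, pr, h1, h2, h3, h4, h5⟩ := WSB.st_of_wsd hl
  obtain ⟨v, rfl, -⟩ := h5 f hf
  refine ⟨D.prune v, D.prune_weaklySkew v h3.weaklySkew, ?_, (D.prune_size_le v).trans h4⟩
  refine ⟨fun x => val x.1, ?_, fun x => h2 x.1, rfl⟩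
  intro x
  exact WSB.prune_compat h1 x

end Pool.Agent.H81.NCH
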